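import Pool.Agent.R402.HA.As5
import Pool.Agent.R402.HA.CP
import Pool.Agent.R402.HA.Cap
import Pool.Agent.R402.HA.Pot
import Pool.Agent.R402.HA.PU
import Pool.Agent.R402.HA.HB
import Pool.Agent.R193.HA.Ker
import Pool.Agent.R834.HA.Norm

/-!
# The capacity criterion for uniform harmonic approximation: (2) implies (1)

For every `n ≥ 3`, every compact `K` in Euclidean `n`-space and every continuous function `f`,
condition (2) implies condition (1).  The theorem is proved also with the weaker condition in which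
`‖φ‖_*` is replaced by the larger norm `∑_{i ≤ m} d(φ)^i ‖D^i φ‖_∞`, for any number `m` of
derivatives.
-/

open MeasureTheory Set Filter Topology
open scoped ENNReal NNReal ContDiff Laplacian

namespace Pool.Agent.Results.MP_7284a1_an.CapacityCriterion

open Pool.Agent.R402.HA

theorem starNormK_one {n : ℕ} (φ : V n → ℝ) : starNormK 1 φ = starNorm φ := by
  unfold starNormK starNorm
  simp [Finset.sum_range_succ, norm_iteratedFDeriv_one]

theorem main {n : ℕ} (hn : 3 ≤ n) (m : ℕ) {K : Set (V n)} (hK : IsCompact K) {f : V n → ℝ}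
    (hf : Continuous f) (h2 : Cond2N (starNormK m) K f) : Cond1 K f := by
  by_contra hne
  obtain ⟨μ, ν, hμf, hνf, hμ, hν, hann, hD⟩ := hb n K hK f hf hne
  obtain ⟨A, hA, hmain⟩ := main_ineq Pool.Agent.R193.HA.ker pot_stm ball_stm
    Pool.Agent.R834.HA.norm_stm cap_stm PU.pu (cp Pool.Agent.R193.HA.ker pot_stm) n hn m
  obtain ⟨η, hηm, hη0, hηt, hη⟩ := h2
  apply hD
  have key : ∀ κ : ℝ, 0 < κ → |∫ x, f x ∂μ - ∫ x, f x ∂ν| ≤
      κ * ((1 + A) * (μ.real univ + ν.real univ)) := by
    intro κ hκ
    obtain ⟨R₀, hR₀⟩ := hK.isBounded.subset_closedBall (0 : V n)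
    have huc : UniformContinuousOn f (Metric.closedBall (0 : V n) (|R₀| + 1)) :=
      (isCompact_closedBall _ _).uniformContinuousOn_of_continuous hf.continuousOn
    obtain ⟨δ, hδ, hδf⟩ := Metric.uniformContinuousOn_iff.1 huc κ hκ
    have hev : ∀ᶠ t in 𝓝[>] (0 : ℝ), η t ≤ κ := by
      have := hηt.eventually (ge_mem_nhds hκ)
      exact this
    have hev2 : ∀ᶠ t in 𝓝[>] (0 : ℝ), t < min δ 1 := by
      have : ∀ᶠ t in 𝓝 (0 : ℝ), t < min δ 1 := gt_mem_nhds (lt_min hδ one_pos)
      exact this.filter_mono nhdsWithin_le_nhds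
    have hev3 : ∀ᶠ t in 𝓝[>] (0 : ℝ), 0 < t := eventually_mem_nhdsWithin
    obtain ⟨t, ⟨ht1, ht2⟩, ht3⟩ := ((hev.and hev2).and hev3).exists
    have h3 := hmain K hK f hf η hηm hη0 hη μ ν hμ hν hann (t / 2) κ (by linarith) hκ.le (by
      intro x hx z hz
      have hz' : ‖z - x‖ ≤ t := by linarith
      have hx1 := hR₀ hx
      rw [mem_closedBall_zero_iff] at hx1
      have hz1 : ‖z‖ ≤ ‖z - x‖ + ‖x‖ := by
        calc ‖z‖ = ‖(z - x) + x‖ := by rw [sub_add_cancel]
          _ ≤ _ := norm_add_le _ _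
      have ht4 : t < δ := ht2.trans_le (min_le_left _ _)
      have ht5 : t < 1 := ht2.trans_le (min_le_right _ _)
      have h4 := hδf z (by rw [mem_closedBall_zero_iff]; linarith [le_abs_self R₀]) x
        (by rw [mem_closedBall_zero_iff]; linarith [le_abs_self R₀])
        (by rw [dist_eq_norm]; linarith)
      rw [Real.dist_eq] at h4
      exact h4.le)
    rw [show 2 * (t / 2) = t by ring] at h3
    have h5 : (κ + A * η t) ≤ κ * (1 + A) := by nlinarith
    calc _ ≤ (κ + A * η t) * (μ.real univ + ν.real univ) := h3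
      _ ≤ κ * (1 + A) * (μ.real univ + ν.real univ) :=
        mul_le_mul_of_nonneg_right h5 (by positivity)
      _ = _ := by ring
  have h0 : |∫ x, f x ∂μ - ∫ x, f x ∂ν| ≤ 0 := by
    refine le_of_forall_delta (W := (1 + A) * (μ.real univ + ν.real univ)) (by positivity)
      fun δ hδ => ?_
    simpa using key δ hδ
  exact sub_eq_zero.1 (abs_eq_zero.1 (le_antisymm h0 (abs_nonneg _)))

/-- **Condition (2) implies condition (1)**, for every `n ≥ 3`, every compact `K` and every
continuous `f`; the same holds when the norm in condition (2) is replaced by the larger norm with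
any number `m` of derivatives. -/
theorem result (n : ℕ) (hn : 3 ≤ n) (K : Set (V n)) (hK : IsCompact K) (f : V n → ℝ)
    (hf : Continuous f) :
    (Cond2 K f → Cond1 K f) ∧ ∀ m : ℕ, Cond2N (starNormK m) K f → Cond1 K f := by
  refine ⟨fun h => ?_, fun m h => main hn m hK hf h⟩
  refine main hn 1 hK hf ?_
  have : (starNormK 1 : (V n → ℝ) → ℝ) = starNorm := funext fun φ => starNormK_one φ
  rw [this]
  exact h

end Pool.Agent.Results.MP_7284a1_an.CapacityCriterion
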